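import Pool.Agent.Helper59.MB.Goals1

/-!
# Project MB (MP_49a1ce_an), goal NTA

The Mellin transform of the summatory function of the Moebius function over an odd residue class
modulo `2 ^ k` extends analytically to the closed half plane.
-/

set_option autoImplicit false

open MeasureTheory Filter Topology Finset Complex

namespace Pool.Agent.Helper72.MB

open Pool.Agent.Helper59.MB

noncomputable section

/-- the Moebius function restricted to a residue class -/
def cc (k r : ℕ) (n : ℕ) : ℂ :=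
  if n % 2 ^ k = r then ((ArithmeticFunction.moebius n : ℤ) : ℂ) else 0

lemma norm_moebius_le (n : ℕ) : ‖((ArithmeticFunction.moebius n : ℤ) : ℂ)‖ ≤ 1 := by
  have h : |ArithmeticFunction.moebius n| ≤ 1 := ArithmeticFunction.abs_moebius_le_one
  have h2 : ‖((ArithmeticFunction.moebius n : ℤ) : ℂ)‖ = ((|ArithmeticFunction.moebius n| : ℤ) : ℝ) := by
    rw [Complex.norm_intCast, Int.cast_abs]
  rw [h2]
  exact_mod_cast h

lemma norm_cc_le (k r n : ℕ) : ‖cc k r n‖ ≤ 1 := by
  unfold cc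
  split_ifs
  · exact norm_moebius_le n
  · simp

lemma cc_bigO (k r : ℕ) :
    (fun n : ℕ => ∑ j ∈ Icc 1 n, ‖cc k r j‖) =O[atTop] fun n : ℕ => (n : ℝ) ^ (1 : ℝ) := by
  refine Asymptotics.IsBigO.of_bound 1 (Eventually.of_forall fun n => ?_)
  rw [Real.rpow_one, one_mul, Real.norm_of_nonneg (Finset.sum_nonneg fun i _ => norm_nonneg _),
    Real.norm_of_nonneg (Nat.cast_nonneg n)]
  calc ∑ j ∈ Icc 1 n, ‖cc k r j‖ ≤ ∑ j ∈ Icc 1 n, (1 : ℝ) :=
        Finset.sum_le_sum fun j _ => norm_cc_le k r j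
    _ = n := by simp

lemma sum_cc (k r : ℕ) (x : ℝ) : ∑ j ∈ Icc 1 ⌊x⌋₊, cc k r j = ((Mp k r x : ℝ) : ℂ) := by
  unfold Mp cc mu
  rw [Finset.sum_ite, Finset.sum_const_zero, add_zero]
  push_cast
  refine Finset.sum_congr rfl fun n _ => ?_
  simp

/-- the coefficient identity -/
lemma cc_eq (k r : ℕ) (hr : Odd r) (hrk : r < 2 ^ k) (n : ℕ) :
    cc k r n = ((2 ^ k : ℕ).totient : ℂ)⁻¹ *
      ∑ χ : DirichletCharacter ℂ (2 ^ k), χ ((r : ZMod (2 ^ k))⁻¹) *
        (χ (n : ZMod (2 ^ k)) * ((ArithmeticFunction.moebius n : ℤ) : ℂ)) := by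
  have hu : IsUnit (r : ZMod (2 ^ k)) := by
    rw [ZMod.isUnit_iff_coprime]
    exact (Nat.Coprime.pow_right k (Nat.coprime_two_right.mpr hr))
  have h := DirichletCharacter.sum_char_inv_mul_char_eq ℂ hu (n : ZMod (2 ^ k))
  have h2 : ∑ χ : DirichletCharacter ℂ (2 ^ k), χ ((r : ZMod (2 ^ k))⁻¹) *
        (χ (n : ZMod (2 ^ k)) * ((ArithmeticFunction.moebius n : ℤ) : ℂ)) =
      (∑ χ : DirichletCharacter ℂ (2 ^ k), χ ((r : ZMod (2 ^ k))⁻¹) * χ (n : ZMod (2 ^ k))) *
        ((ArithmeticFunction.moebius n : ℤ) : ℂ) := by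
    rw [Finset.sum_mul]
    refine Finset.sum_congr rfl fun χ _ => by ring
  rw [h2, h]
  have hpos : ((2 ^ k : ℕ).totient : ℂ) ≠ 0 := by
    exact_mod_cast (Nat.totient_pos.mpr (by positivity)).ne'
  have hiff : (r : ZMod (2 ^ k)) = (n : ZMod (2 ^ k)) ↔ n % 2 ^ k = r := by
    rw [ZMod.natCast_eq_natCast_iff']
    rw [Nat.mod_eq_of_lt hrk]
    exact eq_comm
  unfold cc
  by_cases hn : n % 2 ^ k = r
  · rw [if_pos hn, if_pos (hiff.mpr hn), ← mul_assoc, inv_mul_cancel₀ hpos, one_mul]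
  · rw [if_neg hn, if_neg (fun h => hn (hiff.mp h)), zero_mul, mul_zero]

/-- the values of a character at the natural numbers -/
abbrev cf (k : ℕ) (χ : DirichletCharacter ℂ (2 ^ k)) : ℕ → ℂ := fun n => χ (n : ZMod (2 ^ k))

/-- the complex valued Moebius function -/
abbrev mf : ℕ → ℂ := fun n => ((ArithmeticFunction.moebius n : ℤ) : ℂ)

lemma LSeries_cc (k r : ℕ) (hr : Odd r) (hrk : r < 2 ^ k) {s : ℂ} (hs : 1 < s.re) :
    LSeries (cc k r) s = ((2 ^ k : ℕ).totient : ℂ)⁻¹ *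
      ∑ χ : DirichletCharacter ℂ (2 ^ k), χ ((r : ZMod (2 ^ k))⁻¹) *
        (DirichletCharacter.LFunction χ s)⁻¹ := by
  have hsum : ∀ χ : DirichletCharacter ℂ (2 ^ k), LSeriesSummable (cf k χ * mf) s := fun χ =>
    DirichletCharacter.LSeriesSummable_mul χ
      (ArithmeticFunction.LSeriesSummable_moebius_iff.mpr hs)
  have hL : ∀ χ : DirichletCharacter ℂ (2 ^ k),
      LSeries (cf k χ * mf) s = (DirichletCharacter.LFunction χ s)⁻¹ := by
    intro χ
    have h := DirichletCharacter.LSeries.mul_mu_eq_one χ hs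
    rw [DirichletCharacter.LFunction_eq_LSeries χ hs]
    exact eq_inv_of_mul_eq_one_right h
  have hfun : cc k r = (((2 ^ k : ℕ).totient : ℂ)⁻¹ •
      ∑ χ : DirichletCharacter ℂ (2 ^ k), χ ((r : ZMod (2 ^ k))⁻¹) • (cf k χ * mf)) := by
    funext n
    rw [cc_eq k r hr hrk n]
    simp [Finset.sum_apply, Pi.smul_apply, smul_eq_mul]
  rw [hfun, LSeries_smul, LSeries_sum (fun χ _ => (hsum χ).smul _)]
  congr 1
  refine Finset.sum_congr rfl fun χ _ => ?_
  rw [LSeries_smul, hL]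

/-- the summands of the analytic continuation -/
def GG (k : ℕ) (χ : DirichletCharacter ℂ (2 ^ k)) (z : ℂ) : ℂ :=
  open Classical in
  if χ = 1 then z / ((z + 1) * DirichletCharacter.LFunctionTrivChar₁ (2 ^ k) (z + 1))
  else 1 / ((z + 1) * DirichletCharacter.LFunction χ (z + 1))

lemma GG_analytic (k : ℕ) (χ : DirichletCharacter ℂ (2 ^ k)) (z : ℂ) (hz : 0 ≤ z.re) :
    AnalyticAt ℂ (GG k χ) z := by
  have hz1 : z + 1 ≠ 0 := by
    intro h
    have := congrArg Complex.re h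
    simp at this
    linarith
  have hs : 1 ≤ (z + 1).re := by simp [hz]
  have hid : AnalyticAt ℂ (fun w : ℂ => w + 1) z := analyticAt_id.add analyticAt_const
  by_cases hχ : χ = 1
  · have he : GG k χ = fun z => z / ((z + 1) *
        DirichletCharacter.LFunctionTrivChar₁ (2 ^ k) (z + 1)) := by
      funext w; unfold GG; rw [if_pos hχ]
    rw [he]
    have hd : Differentiable ℂ (fun w : ℂ =>
        DirichletCharacter.LFunctionTrivChar₁ (2 ^ k) (w + 1)) :=
      (DirichletCharacter.differentiable_LFunctionTrivChar₁ (2 ^ k)).comp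
        (differentiable_id.add_const 1)
    refine AnalyticAt.div analyticAt_id (hid.mul (hd.analyticAt z)) ?_
    refine mul_ne_zero hz1 ?_
    by_cases hz0 : z + 1 = 1
    · show DirichletCharacter.LFunctionTrivChar₁ (2 ^ k) (z + 1) ≠ 0
      rw [hz0]
      exact DirichletCharacter.LFunctionTrivChar₁_apply_one_ne_zero (2 ^ k)
    · show DirichletCharacter.LFunctionTrivChar₁ (2 ^ k) (z + 1) ≠ 0
      rw [DirichletCharacter.LFunctionTrivChar₁, Function.update_of_ne hz0]
      refine mul_ne_zero (sub_ne_zero_of_ne hz0) ?_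
      exact DirichletCharacter.LFunction_ne_zero_of_one_le_re 1 (Or.inr hz0) hs
  · have he : GG k χ = fun z => 1 / ((z + 1) * DirichletCharacter.LFunction χ (z + 1)) := by
      funext w; unfold GG; rw [if_neg hχ]
    rw [he]
    have hd : Differentiable ℂ (fun w : ℂ => DirichletCharacter.LFunction χ (w + 1)) :=
      (DirichletCharacter.differentiable_LFunction hχ).comp (differentiable_id.add_const 1)
    refine AnalyticAt.div analyticAt_const (hid.mul (hd.analyticAt z)) ?_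
    exact mul_ne_zero hz1 (DirichletCharacter.LFunction_ne_zero_of_one_le_re χ (Or.inl hχ) hs)

lemma GG_eq (k : ℕ) (χ : DirichletCharacter ℂ (2 ^ k)) (z : ℂ) (hz : 0 < z.re) :
    GG k χ z = (z + 1)⁻¹ * (DirichletCharacter.LFunction χ (z + 1))⁻¹ := by
  have hz0 : z ≠ 0 := by
    intro h; rw [h] at hz; simp at hz
  have hz1 : z + 1 ≠ 1 := by simpa using hz0
  unfold GG
  by_cases hχ : χ = 1
  · rw [if_pos hχ, hχ, DirichletCharacter.LFunctionTrivChar₁, Function.update_of_ne hz1]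
    show z / ((z + 1) * ((z + 1 - 1) * DirichletCharacter.LFunction 1 (z + 1))) = _
    rw [add_sub_cancel_right, ← mul_inv]
    rw [show (z + 1) * (z * DirichletCharacter.LFunction (1 : DirichletCharacter ℂ (2 ^ k)) (z + 1))
      = z * ((z + 1) * DirichletCharacter.LFunction (1 : DirichletCharacter ℂ (2 ^ k)) (z + 1)) from by ring]
    rw [div_eq_mul_inv, mul_inv, ← mul_assoc, mul_inv_cancel₀ hz0, one_mul]
  · rw [if_neg hχ, one_div, mul_inv]

theorem t_NTA : Pool.Agent.Helper59.MB.S_NTA := by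
  intro k r hr hrk
  refine ⟨fun z => ((2 ^ k : ℕ).totient : ℂ)⁻¹ *
      ∑ χ : DirichletCharacter ℂ (2 ^ k), χ ((r : ZMod (2 ^ k))⁻¹) * GG k χ z, ?_, ?_⟩
  · intro z hz
    refine AnalyticAt.mul analyticAt_const ?_
    refine Finset.analyticAt_fun_sum _ fun χ _ => ?_
    exact AnalyticAt.mul analyticAt_const (GG_analytic k χ z hz)
  · intro z hz
    have hs : 1 < (z + 1).re := by simp [hz]
    have hz1 : z + 1 ≠ 0 := by
      intro h
      have := congrArg Complex.re h
      simp at this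
      linarith
    have h1 := LSeries_eq_mul_integral' (cc k r) zero_le_one hs (cc_bigO k r)
    have h2 := LSeries_cc k r hr hrk hs
    have h3 : ((2 ^ k : ℕ).totient : ℂ)⁻¹ *
      ∑ χ : DirichletCharacter ℂ (2 ^ k), χ ((r : ZMod (2 ^ k))⁻¹) * GG k χ z =
        (z + 1)⁻¹ * LSeries (cc k r) (z + 1) := by
      rw [h2]
      rw [← mul_assoc, mul_comm (z + 1)⁻¹, mul_assoc, Finset.mul_sum (a := (z + 1)⁻¹)]
      congr 1
      refine Finset.sum_congr rfl fun χ _ => ?_
      rw [GG_eq k χ z hz]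
      ring
    show ((2 ^ k : ℕ).totient : ℂ)⁻¹ *
      ∑ χ : DirichletCharacter ℂ (2 ^ k), χ ((r : ZMod (2 ^ k))⁻¹) * GG k χ z = _
    rw [h3, h1, ← mul_assoc, inv_mul_cancel₀ hz1, one_mul]
    refine setIntegral_congr_fun measurableSet_Ioi fun x hx => ?_
    have hx0 : (x : ℂ) ≠ 0 := by
      have : (0 : ℝ) < x := lt_trans one_pos hx
      exact_mod_cast this.ne'
    show (∑ j ∈ Icc 1 ⌊x⌋₊, cc k r j) * (x : ℂ) ^ (-(z + 1 + 1)) =
      (x : ℂ) ^ (-z - 1) * ((Mp k r x / x : ℝ) : ℂ)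
    rw [sum_cc, show -(z + 1 + 1) = (-z - 1) - 1 from by ring, cpow_sub _ _ hx0, cpow_one]
    push_cast
    ring

end

end Pool.Agent.Helper72.MB
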